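import Pool.Agent.P8H94.SV.Helm
import Pool.Agent.Helper202.Geom

/-! Package FLUX of project SV: the flux through the level lines of `|w|` vanishes. -/

set_option autoImplicit false

open MeasureTheory Set Filter Metric
open scoped Topology ContDiff ComplexConjugate

namespace Pool.Agent.P8H94.SV

open Pool.Agent.TH298.Sch (SC dd Lr dd_sc Lr_sc dd_Lr)
open Pool.Agent.R227.SA (la Dat la_Lr)
open Pool.Agent.P8H8.SV

/-- the algebra of the divergence -/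
lemma div_alg {al be ma mb P Q Px Py Qx Qy : ℂ → ℝ} {al' be' ma' mb' P' Q' Px' Py' Qx' Qy' : ℂ →L[ℝ] ℝ}
    {lam m : ℝ} {ζ : ℂ} (h1 : HasFDerivAt al al' ζ) (h2 : HasFDerivAt be be' ζ)
    (h3 : HasFDerivAt ma ma' ζ) (h4 : HasFDerivAt mb mb' ζ) (h5 : HasFDerivAt P P' ζ)
    (h6 : HasFDerivAt Q Q' ζ) (h7 : HasFDerivAt Px Px' ζ) (h8 : HasFDerivAt Py Py' ζ)
    (h9 : HasFDerivAt Qx Qx' ζ) (h10 : HasFDerivAt Qy Qy' ζ)
    (c1 : al' 1 = be' Complex.I) (c2 : al' Complex.I = -be' 1) (c3 : ma' 1 + mb' Complex.I = 0)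
    (c4 : P' 1 = Px ζ) (c5 : P' Complex.I = Py ζ) (c6 : Q' 1 = Qx ζ) (c7 : Q' Complex.I = Qy ζ)
    (c8 : Px' Complex.I = Py' 1) (c9 : Qx' Complex.I = Qy' 1)
    (c10 : Px' 1 + Py' Complex.I = -lam * m * P ζ) (c11 : Qx' 1 + Qy' Complex.I = -lam * m * Q ζ)
    (c12 : ma ζ = m * al ζ) (c13 : mb ζ = m * be ζ) :
    ∃ A' B' : ℂ →L[ℝ] ℝ,
      HasFDerivAt (fun z => al z * (Px z * Qx z - Py z * Qy z) + be z * (Px z * Qy z + Py z * Qx z)
        + lam * (ma z * (P z * Q z))) A' ζ ∧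
      HasFDerivAt (fun z => -(be z * (Px z * Qx z - Py z * Qy z)) +
        al z * (Px z * Qy z + Py z * Qx z) + lam * (mb z * (P z * Q z))) B' ζ ∧
      A' 1 + B' Complex.I = 0 := by
  refine ⟨_, _, ((h1.mul ((h7.mul h9).sub (h8.mul h10))).add
    (h2.mul ((h7.mul h10).add (h8.mul h9)))).add ((h3.mul (h5.mul h6)).const_mul lam),
    (((h2.mul ((h7.mul h9).sub (h8.mul h10))).neg).add
    (h1.mul ((h7.mul h10).add (h8.mul h9)))).add ((h4.mul (h5.mul h6)).const_mul lam), ?_⟩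
  simp only [add_apply, sub_apply, smul_apply, neg_apply, smul_eq_mul, Pi.mul_apply, Pi.sub_apply,
    Pi.add_apply]
  have e1 : Px' 1 = -lam * m * P ζ - Py' Complex.I := by linarith
  have e2 : Qx' 1 = -lam * m * Q ζ - Qy' Complex.I := by linarith
  have e3 : ma' 1 = - mb' Complex.I := by linarith
  rw [c1, c2, c4, c5, c6, c7, c8, c9, c12, c13, e1, e2, e3]
  ring

/-- the other component of the flux -/
noncomputable def fluxB (φ : ℂ → ℂ) (lam : ℝ) (v : ℂ → ℝ) (a : Fin 3 → ℂ) (b : Fin 3 → ℝ) (ζ : ℂ) :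
    ℝ :=
  -((kz φ (a 1) (b 1) ζ).im * (dd 1 (PP φ v (a 0) (b 0)) ζ * dd 1 (PP φ v (a 2) (b 2)) ζ
      - dd Complex.I (PP φ v (a 0) (b 0)) ζ * dd Complex.I (PP φ v (a 2) (b 2)) ζ))
    + (kz φ (a 1) (b 1) ζ).re * (dd 1 (PP φ v (a 0) (b 0)) ζ * dd Complex.I (PP φ v (a 2) (b 2)) ζ
      + dd Complex.I (PP φ v (a 0) (b 0)) ζ * dd 1 (PP φ v (a 2) (b 2)) ζ)
    + lam * ((kf (a 1) (b 1) (φ (Complex.exp ζ)) * conj (dF φ ζ)).im *
      (PP φ v (a 0) (b 0) ζ * PP φ v (a 2) (b 2) ζ))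

variable {φ : ℂ → ℂ} {r lam c : ℝ} {v : ℂ → ℝ} {a : Fin 3 → ℂ} {b : Fin 3 → ℝ}

lemma dF_ne (hφ : Dom φ r) {ζ : ℂ} (h : ζ.re < 0) : dF φ ζ ≠ 0 := by
  unfold dF
  refine mul_ne_zero (Complex.exp_ne_zero _) ?_
  exact Pool.Agent.Helper202.Geom.deriv_ne_zero_of_injOn isOpen_ball hφ.hol hφ.inj
    (ball_subset_ball hφ.hr.le (exp_mem h))

lemma dF_hd (hφ : Dom φ r) {ζ : ℂ} (h : ζ.re < 0) : DifferentiableAt ℂ (dF φ) ζ := by
  have h1 : AnalyticAt ℂ φ (Complex.exp ζ) :=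
    hφ.hol.analyticAt (isOpen_ball.mem_nhds (ball_subset_ball hφ.hr.le (exp_mem h)))
  have h2 := h1.deriv.differentiableAt.comp ζ (Complex.differentiable_exp ζ)
  exact (Complex.differentiable_exp ζ).mul h2

lemma kk_hd (hφ : Dom φ r) (a : ℂ) (b : ℝ) {ζ : ℂ} (h : ζ.re < 0) :
    HasDerivAt (fun z => kf a b (φ (Complex.exp z))) (b * Complex.I * dF φ ζ) ζ := by
  have h1 := (F_an hφ h).differentiableAt.hasDerivAt
  rw [F_deriv hφ h] at h1
  unfold kf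
  exact (h1.const_mul (b * Complex.I)).const_add a

lemma kz_mul (hφ : Dom φ r) (a : ℂ) (b : ℝ) {ζ : ℂ} (h : ζ.re < 0) :
    kf a b (φ (Complex.exp ζ)) * conj (dF φ ζ) = (‖dF φ ζ‖ ^ 2 : ℝ) * kz φ a b ζ := by
  unfold kz
  rw [← Complex.normSq_eq_norm_sq, Complex.normSq_eq_conj_mul_self]
  field_simp [dF_ne hφ h]

lemma half_nhds {ζ : ℂ} (h : ζ.re < 0) : ∀ᶠ z in 𝓝 ζ, z.re < 0 :=
  (isOpen_lt Complex.continuous_re continuous_const).mem_nhds h

/-- the flux is divergence free -/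
lemma flux_hd (hφ : Dom φ r) (D : Dat (φ '' ball 0 1) lam c v) {ζ : ℂ} (h : ζ.re < 0) :
    ∃ A' B' : ℂ →L[ℝ] ℝ, HasFDerivAt (flux φ lam v a b) A' ζ ∧
      HasFDerivAt (fluxB φ lam v a b) B' ζ ∧ A' 1 + B' Complex.I = 0 := by
  have hP : ∀ (a : ℂ) (b : ℝ), ContDiffAt ℝ 2 (PP φ v a b) ζ := fun a b =>
    ((t_HELM φ r lam c v a b hφ D).1.contDiffAt (half_nhds h)).of_le (by norm_cast)
  have hPe : ∀ (a : ℂ) (b : ℝ), la (PP φ v a b) ζ = -lam * ‖dF φ ζ‖ ^ 2 * PP φ v a b ζ :=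
    fun a b => (t_HELM φ r lam c v a b hφ D).2 ζ h
  have hd1 : ∀ (a : ℂ) (b : ℝ), HasFDerivAt (PP φ v a b) (fderiv ℝ (PP φ v a b) ζ) ζ :=
    fun a b => ((hP a b).differentiableAt (by norm_num)).hasFDerivAt
  have hd2 : ∀ (a : ℂ) (b : ℝ) (k : ℂ), HasFDerivAt (dd k (PP φ v a b))
      (fderiv ℝ (dd k (PP φ v a b)) ζ) ζ := by
    intro a b k
    have h1 : ContDiffAt ℝ 1 (fderiv ℝ (PP φ v a b)) ζ := (hP a b).fderiv_right (by norm_num)
    have h2 : ContDiffAt ℝ 1 (fun z => fderiv ℝ (PP φ v a b) z k) ζ :=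
      h1.clm_apply contDiffAt_const
    exact (h2.differentiableAt (by norm_num)).hasFDerivAt
  have hkz : DifferentiableAt ℂ (kz φ (a 1) (b 1)) ζ :=
    (kk_hd hφ (a 1) (b 1) h).differentiableAt.div (dF_hd hφ h) (dF_ne hφ h)
  have hk1 := hol_fderiv hkz
  set k' := deriv (kz φ (a 1) (b 1)) ζ with hk'
  have hW : HasFDerivAt (fun z => kf (a 1) (b 1) (φ (Complex.exp z)) * conj (dF φ z))
      (kf (a 1) (b 1) (φ (Complex.exp ζ)) •
        ((Complex.conjCLE : ℂ →L[ℝ] ℂ).comp (deriv (dF φ) ζ • (ContinuousLinearMap.id ℝ ℂ))) +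
        conj (dF φ ζ) • ((b 1 * Complex.I * dF φ ζ) • (ContinuousLinearMap.id ℝ ℂ))) ζ := by
    have h1 := hol_fderiv (kk_hd hφ (a 1) (b 1) h).differentiableAt
    rw [(kk_hd hφ (a 1) (b 1) h).deriv] at h1
    have h2 : HasFDerivAt (fun z => conj (dF φ z))
      ((Complex.conjCLE : ℂ →L[ℝ] ℂ).comp (deriv (dF φ) ζ • (ContinuousLinearMap.id ℝ ℂ))) ζ :=
      (Complex.conjCLE : ℂ →L[ℝ] ℂ).hasFDerivAt.comp ζ (hol_fderiv (dF_hd hφ h))
    exact h1.mul h2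
  have hm := kz_mul hφ (a 1) (b 1) h
  obtain ⟨A', B', hA, hB, hAB⟩ := div_alg (lam := lam) (m := ‖dF φ ζ‖ ^ 2)
    (Complex.reCLM.hasFDerivAt.comp ζ hk1) (Complex.imCLM.hasFDerivAt.comp ζ hk1)
    (Complex.reCLM.hasFDerivAt.comp ζ hW) (Complex.imCLM.hasFDerivAt.comp ζ hW)
    (hd1 (a 0) (b 0)) (hd1 (a 2) (b 2)) (hd2 (a 0) (b 0) 1) (hd2 (a 0) (b 0) Complex.I)
    (hd2 (a 2) (b 2) 1) (hd2 (a 2) (b 2) Complex.I) (by simp) (by simp) (by
      simp
      ring) rfl rfl rfl rfl (dd_comm (hP _ _) _ _) (dd_comm (hP _ _) _ _) (hPe _ _) (hPe _ _)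
    (by
      change (kf (a 1) (b 1) (φ (Complex.exp ζ)) * conj (dF φ ζ)).re = _
      rw [hm, Complex.re_ofReal_mul]
      rfl) (by
      change (kf (a 1) (b 1) (φ (Complex.exp ζ)) * conj (dF φ ζ)).im = _
      rw [hm, Complex.im_ofReal_mul]
      rfl)
  refine ⟨A', B', hA.congr_of_eventuallyEq ?_, hB, hAB⟩
  filter_upwards [half_nhds h] with z hz
  have hm' := kz_mul hφ (a 1) (b 1) hz
  unfold flux
  change _ = _ + lam * ((kf (a 1) (b 1) (φ (Complex.exp z)) * conj (dF φ z)).re * _)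
  rw [hm', Complex.re_ofReal_mul]
  simp only [Function.comp, Complex.reCLM_apply, Complex.imCLM_apply]
  ring

/-! ### Periodicity -/

lemma exp_per (ζ : ℂ) : Complex.exp (ζ + 2 * Real.pi * Complex.I) = Complex.exp ζ :=
  Complex.exp_periodic ζ

lemma PP_per (a : ℂ) (b : ℝ) (ζ : ℂ) :
    PP φ v a b (ζ + 2 * Real.pi * Complex.I) = PP φ v a b ζ := by
  unfold PP
  rw [exp_per]

lemma dd_PP_per (a : ℂ) (b : ℝ) (k ζ : ℂ) :
    dd k (PP φ v a b) (ζ + 2 * Real.pi * Complex.I) = dd k (PP φ v a b) ζ := by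
  have h1 : PP φ v a b = fun z => PP φ v a b (z + 2 * Real.pi * Complex.I) :=
    funext fun z => (PP_per a b z).symm
  unfold dd
  conv_rhs => rw [h1]
  rw [fderiv_comp_add_right]

lemma dF_per (ζ : ℂ) : dF φ (ζ + 2 * Real.pi * Complex.I) = dF φ ζ := by
  unfold dF
  rw [exp_per]

lemma kz_per (a : ℂ) (b : ℝ) (ζ : ℂ) :
    kz φ a b (ζ + 2 * Real.pi * Complex.I) = kz φ a b ζ := by
  unfold kz
  rw [exp_per, dF_per]

lemma fluxB_per (ζ : ℂ) :
    fluxB φ lam v a b (ζ + 2 * Real.pi * Complex.I) = fluxB φ lam v a b ζ := by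
  unfold fluxB
  rw [exp_per, dF_per, kz_per, PP_per, PP_per, dd_PP_per, dd_PP_per, dd_PP_per, dd_PP_per]

/-! ### The flux is constant -/

lemma flux_const (hφ : Dom φ r) (D : Dat (φ '' ball 0 1) lam c v) {x₁ x₂ : ℝ} (h1 : x₁ < 0)
    (h2 : x₂ < 0) :
    ∫ y in (0 : ℝ)..2 * Real.pi, flux φ lam v a b (x₂ + y * Complex.I) =
      ∫ y in (0 : ℝ)..2 * Real.pi, flux φ lam v a b (x₁ + y * Complex.I) := by
  have hpi := Real.pi_pos
  choose! A' B' hA hB hAB using fun (ζ : ℂ) (h : ζ.re < 0) => flux_hd (a := a) (b := b) hφ D h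
  set L : ℝ × ℝ →L[ℝ] ℂ := (Complex.equivRealProdCLM.symm : ℝ × ℝ →L[ℝ] ℂ) with hL
  have hLe : ∀ p : ℝ × ℝ, L p = p.1 + p.2 * Complex.I := fun p => by
    rw [hL]
    change Complex.equivRealProdCLM.symm p = _
    rw [Complex.equivRealProdCLM_symm_apply]
  have hre : ∀ p : ℝ × ℝ, (L p).re = p.1 := fun p => by
    rw [hLe]
    simp
  have hx : ∀ p ∈ uIcc x₁ x₂ ×ˢ uIcc (0 : ℝ) (2 * Real.pi), (L p).re < 0 := by
    rintro p ⟨hp, -⟩
    rw [hre]
    rcases le_total x₁ x₂ with h | h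
    · rw [uIcc_of_le h] at hp
      exact lt_of_le_of_lt hp.2 h2
    · rw [uIcc_of_ge h] at hp
      exact lt_of_le_of_lt hp.2 h1
  have hx' : ∀ p ∈ Ioo (min x₁ x₂) (max x₁ x₂) ×ˢ Ioo (min 0 (2 * Real.pi)) (max 0 (2 * Real.pi)) \
      (∅ : Set (ℝ × ℝ)), (L p).re < 0 := by
    rintro p ⟨⟨hp, -⟩, -⟩
    rw [hre]
    exact lt_of_lt_of_le hp.2 (max_le h1.le h2.le)
  have hf : ∀ p : ℝ × ℝ, (L p).re < 0 →
      HasFDerivAt (fun p => flux φ lam v a b (L p)) ((A' (L p)).comp L) p := fun p hp =>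
    (hA _ hp).comp p L.hasFDerivAt
  have hg : ∀ p : ℝ × ℝ, (L p).re < 0 →
      HasFDerivAt (fun p => fluxB φ lam v a b (L p)) ((B' (L p)).comp L) p := fun p hp =>
    (hB _ hp).comp p L.hasFDerivAt
  have h10 : L (1, 0) = 1 := by rw [hLe]; simp
  have h01 : L (0, 1) = Complex.I := by rw [hLe]; simp
  have hz : ∀ p : ℝ × ℝ, (L p).re < 0 →
      ((A' (L p)).comp L) (1, 0) + ((B' (L p)).comp L) (0, 1) = 0 := by
    intro p hp
    rw [ContinuousLinearMap.comp_apply, ContinuousLinearMap.comp_apply, h10, h01]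
    exact hAB _ hp
  have key := integral2_divergence_prod_of_hasFDerivAt_off_countable
    (fun p => flux φ lam v a b (L p)) (fun p => fluxB φ lam v a b (L p))
    (fun p => (A' (L p)).comp L) (fun p => (B' (L p)).comp L) x₁ 0 x₂ (2 * Real.pi) ∅
    countable_empty
    (fun p hp => (hf p (hx p hp)).continuousAt.continuousWithinAt)
    (fun p hp => (hg p (hx p hp)).continuousAt.continuousWithinAt)
    (fun p hp => hf p (hx' p hp)) (fun p hp => hg p (hx' p hp))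
    ((integrableOn_zero (μ := volume)).congr_fun (fun p hp => (hz p (hx p hp)).symm)
      (measurableSet_uIcc.prod measurableSet_uIcc))
  have e0 : (∫ x in x₁..x₂, ∫ y in (0 : ℝ)..2 * Real.pi,
      ((A' (L (x, y))).comp L) (1, 0) + ((B' (L (x, y))).comp L) (0, 1)) = 0 := by
    have e2 : ∀ x ∈ uIcc x₁ x₂, (∫ y in (0 : ℝ)..2 * Real.pi,
        ((A' (L (x, y))).comp L) (1, 0) + ((B' (L (x, y))).comp L) (0, 1)) = 0 := by
      intro x hx1
      have e3 : (∫ y in (0 : ℝ)..2 * Real.pi,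
          ((A' (L (x, y))).comp L) (1, 0) + ((B' (L (x, y))).comp L) (0, 1)) =
          ∫ y in (0 : ℝ)..2 * Real.pi, (0 : ℝ) :=
        intervalIntegral.integral_congr fun y hy1 => hz (x, y) (hx (x, y) ⟨hx1, hy1⟩)
      rw [e3, intervalIntegral.integral_zero]
    rw [intervalIntegral.integral_congr e2, intervalIntegral.integral_zero]
  have e1 : (∫ x in x₁..x₂, fluxB φ lam v a b (L (x, 2 * Real.pi))) =
      ∫ x in x₁..x₂, fluxB φ lam v a b (L (x, 0)) := by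
    refine intervalIntegral.integral_congr fun x _ => ?_
    simp only [hLe]
    have := fluxB_per (φ := φ) (lam := lam) (v := v) (a := a) (b := b) (x : ℂ)
    push_cast at this ⊢
    rw [this]
    simp
  rw [e0, e1] at key
  simp only [hLe] at key
  linarith

/-! ### Decay -/

lemma abs_alg {al be K px py qx qy P Q lam m ρ C : ℝ} (hρ : 0 < ρ) (hC : 0 ≤ C) (hal : |al| ≤ K)
    (hbe : |be| ≤ K) (hK : K * ρ ≤ C) (h1 : |px| ≤ C * ρ) (h2 : |py| ≤ C * ρ) (h3 : |qx| ≤ C * ρ)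
    (h4 : |qy| ≤ C * ρ) (hP : |P| ≤ C) (hQ : |Q| ≤ C) (hm : 0 ≤ m) (hm' : m ≤ (C * ρ) ^ 2) :
    |al * (px * qx - py * qy) + be * (px * qy + py * qx) + lam * m * al * P * Q| ≤
      (4 * C ^ 3 + |lam| * C ^ 5) * ρ := by
  have hK0 : 0 ≤ K := (abs_nonneg _).trans hal
  have hCρ : 0 ≤ C * ρ := by positivity
  have pr : ∀ {x y A B : ℝ}, |x| ≤ A → |y| ≤ B → |x * y| ≤ A * B := by
    intro x y A B hx hy
    rw [abs_mul]
    exact mul_le_mul hx hy (abs_nonneg _) ((abs_nonneg _).trans hx)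
  have k1 : |px * qx - py * qy| ≤ 2 * (C * ρ) ^ 2 := by
    have := abs_sub (px * qx) (py * qy)
    have a1 := pr h1 h3
    have a2 := pr h2 h4
    nlinarith
  have k2 : |px * qy + py * qx| ≤ 2 * (C * ρ) ^ 2 := by
    have := abs_add_le (px * qy) (py * qx)
    have a1 := pr h1 h4
    have a2 := pr h2 h3
    nlinarith
  have k3 := pr hal k1
  have k4 := pr hbe k2
  have k5 : |lam * m * al * P * Q| ≤ |lam| * (C * ρ) ^ 2 * K * C * C := by
    refine pr (pr (pr (pr le_rfl ?_) hal) hP) hQ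
    rwa [abs_of_nonneg hm]
  have k6 : |al * (px * qx - py * qy) + be * (px * qy + py * qx) + lam * m * al * P * Q| ≤
      K * (2 * (C * ρ) ^ 2) + K * (2 * (C * ρ) ^ 2) + |lam| * (C * ρ) ^ 2 * K * C * C :=
    (abs_add_le _ _).trans (add_le_add ((abs_add_le _ _).trans (add_le_add k3 k4)) k5)
  have k7 : K * (2 * (C * ρ) ^ 2) + K * (2 * (C * ρ) ^ 2) + |lam| * (C * ρ) ^ 2 * K * C * C =
      (K * ρ) * ((4 * C ^ 2 + |lam| * C ^ 4) * ρ) := by ring
  have k8 : (K * ρ) * ((4 * C ^ 2 + |lam| * C ^ 4) * ρ) ≤ C * ((4 * C ^ 2 + |lam| * C ^ 4) * ρ) :=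
    mul_le_mul_of_nonneg_right hK (by positivity)
  have k9 : C * ((4 * C ^ 2 + |lam| * C ^ 4) * ρ) = (4 * C ^ 3 + |lam| * C ^ 5) * ρ := by ring
  linarith

lemma PP_bd (hφ : Dom φ r) (D : Dat (φ '' ball 0 1) lam c v) (a : ℂ) (b : ℝ) :
    ∃ C : ℝ, 0 ≤ C ∧ ∀ᶠ w in 𝓝 (0 : ℂ), ∀ ζ : ℂ, Complex.exp ζ = w →
      |PP φ v a b ζ| ≤ C ∧ |dd 1 (PP φ v a b) ζ| ≤ C * ‖w‖ ∧
        |dd Complex.I (PP φ v a b) ζ| ≤ C * ‖w‖ := by
  set g : ℂ → ℝ := fun w => pk v a b (φ w) with hg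
  have hsm : ∀ w ∈ ball (0 : ℂ) 1, ContDiffAt ℝ 2 g w := by
    intro w hw
    have h1 : AnalyticAt ℂ φ w :=
      hφ.hol.analyticAt (isOpen_ball.mem_nhds (ball_subset_ball hφ.hr.le hw))
    have h2 : ContDiffAt ℝ ∞ φ w := (h1.contDiffAt (n := ∞)).restrict_scalars ℝ
    exact ((pk_loc D a b (mem_image_of_mem _ hw)).1.comp w h2).of_le (by norm_cast)
  have h0 : (0 : ℂ) ∈ ball (0 : ℂ) 1 := mem_ball_self one_pos
  have c1 : ContinuousAt (fun w => |g w|) 0 := (hsm 0 h0).continuousAt.abs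
  have c2 : ContinuousAt (fun w => ‖fderiv ℝ g w‖) 0 :=
    ((hsm 0 h0).fderiv_right (m := 1) (by norm_num)).continuousAt.norm
  refine ⟨|g 0| + ‖fderiv ℝ g 0‖ + 1, by positivity, ?_⟩
  filter_upwards [c1.eventually_lt_const (lt_add_one _), c2.eventually_lt_const (lt_add_one _),
    ball_mem_nhds (0 : ℂ) one_pos] with w h1 h2 h3
  intro ζ hζ
  have n1 := norm_nonneg (fderiv ℝ g 0)
  have n2 := abs_nonneg (g 0)
  have hd : ∀ k : ℂ, ‖k‖ = 1 →
      |dd k (PP φ v a b) ζ| ≤ (|g 0| + ‖fderiv ℝ g 0‖ + 1) * ‖w‖ := by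
    intro k hk
    have e1 : dd k (PP φ v a b) ζ = fderiv ℝ g w (w * k) := by
      have := dd_comp (U := g) (f := Complex.exp) (w := ζ)
        (by rw [hζ]; exact (hsm w h3).differentiableAt (by norm_num))
        Complex.differentiableAt_exp k
      rw [Complex.deriv_exp, hζ] at this
      exact this
    rw [e1, ← Real.norm_eq_abs]
    refine ((fderiv ℝ g w).le_opNorm _).trans ?_
    rw [norm_mul, hk, mul_one]
    refine mul_le_mul_of_nonneg_right ?_ (norm_nonneg _)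
    linarith
  refine ⟨?_, hd 1 (by simp), hd Complex.I (by simp)⟩
  change |g (Complex.exp ζ)| ≤ _
  rw [hζ]
  linarith

lemma kz_bd (hφ : Dom φ r) (a : ℂ) (b : ℝ) :
    ∃ C : ℝ, 0 ≤ C ∧ ∀ᶠ w in 𝓝 (0 : ℂ), ∀ ζ : ℂ, Complex.exp ζ = w →
      ‖kz φ a b ζ‖ * ‖w‖ ≤ C ∧ ‖dF φ ζ‖ ≤ C * ‖w‖ := by
  have h0 : (0 : ℂ) ∈ ball (0 : ℂ) 1 := mem_ball_self one_pos
  have h1 : AnalyticAt ℂ φ 0 :=
    hφ.hol.analyticAt (isOpen_ball.mem_nhds (ball_subset_ball hφ.hr.le h0))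
  have hne : deriv φ 0 ≠ 0 := Pool.Agent.Helper202.Geom.deriv_ne_zero_of_injOn isOpen_ball hφ.hol
    hφ.inj (ball_subset_ball hφ.hr.le h0)
  have c1 : ContinuousAt (fun w => ‖kf a b (φ w) / deriv φ w‖) 0 := by
    unfold kf
    exact ((continuousAt_const.add (continuousAt_const.mul h1.continuousAt)).div
      h1.deriv.continuousAt hne).norm
  have c2 : ContinuousAt (fun w => ‖deriv φ w‖) 0 := h1.deriv.continuousAt.norm
  refine ⟨‖kf a b (φ 0) / deriv φ 0‖ + ‖deriv φ 0‖ + 1, by positivity, ?_⟩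
  filter_upwards [c1.eventually_lt_const (lt_add_one _), c2.eventually_lt_const (lt_add_one _)]
    with w h1 h2
  intro ζ hζ
  have n1 := norm_nonneg (kf a b (φ 0) / deriv φ 0)
  have n2 := norm_nonneg (deriv φ 0)
  have hw : w ≠ 0 := by
    rw [← hζ]
    exact Complex.exp_ne_zero _
  constructor
  · have e1 : kz φ a b ζ * w = kf a b (φ w) / deriv φ w := by
      unfold kz dF
      rw [hζ]
      by_cases hd : deriv φ w = 0
      · rw [hd]
        simp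
      · field_simp
    rw [← norm_mul, e1]
    linarith
  · unfold dF
    rw [hζ, norm_mul, mul_comm]
    refine mul_le_mul_of_nonneg_right ?_ (norm_nonneg _)
    linarith

lemma flux_decay (hφ : Dom φ r) (D : Dat (φ '' ball 0 1) lam c v) :
    ∃ K ρ : ℝ, 0 ≤ K ∧ 0 < ρ ∧ ∀ ζ : ℂ, Real.exp ζ.re < ρ →
      |flux φ lam v a b ζ| ≤ K * Real.exp ζ.re := by
  obtain ⟨C0, h0, k0⟩ := PP_bd hφ D (a 0) (b 0)
  obtain ⟨C2, h2, k2⟩ := PP_bd hφ D (a 2) (b 2)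
  obtain ⟨C1, h1, k1⟩ := kz_bd hφ (a 1) (b 1)
  obtain ⟨ρ, hρ, hb⟩ := Metric.eventually_nhds_iff_ball.1 (k0.and (k1.and k2))
  set C := C0 + C1 + C2 with hC
  have hC0 : 0 ≤ C := by positivity
  refine ⟨4 * C ^ 3 + |lam| * C ^ 5, ρ, by positivity, hρ, fun ζ hζ => ?_⟩
  have hn : ‖Complex.exp ζ‖ = Real.exp ζ.re := Complex.norm_exp ζ
  obtain ⟨p0, p1, p2⟩ := hb (Complex.exp ζ) (by rwa [mem_ball_zero_iff, hn])
  obtain ⟨a1, a2, a3⟩ := p0 ζ rfl
  obtain ⟨b1, b2⟩ := p1 ζ rfl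
  obtain ⟨c1, c2, c3⟩ := p2 ζ rfl
  rw [hn] at a2 a3 b1 b2 c2 c3
  have he := Real.exp_pos ζ.re
  have m0 : C0 * Real.exp ζ.re ≤ C * Real.exp ζ.re :=
    mul_le_mul_of_nonneg_right (by linarith) he.le
  have m1 : C1 * Real.exp ζ.re ≤ C * Real.exp ζ.re :=
    mul_le_mul_of_nonneg_right (by linarith) he.le
  have m2 : C2 * Real.exp ζ.re ≤ C * Real.exp ζ.re :=
    mul_le_mul_of_nonneg_right (by linarith) he.le
  unfold flux
  exact abs_alg he hC0 (Complex.abs_re_le_norm _) (Complex.abs_im_le_norm _) (by linarith)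
    (by linarith) (by linarith) (by linarith) (by linarith) (by linarith) (by linarith)
    (by positivity) (by
      have := norm_nonneg (dF φ ζ)
      exact pow_le_pow_left₀ this (by linarith) 2)

theorem t_FLUX : S_FLUX := by
  intro φ r lam c v a b hφ D x hx
  obtain ⟨K, ρ, hK, hρ, hb⟩ := flux_decay (a := a) (b := b) hφ D
  have hpi := Real.pi_pos
  have h1 : ∀ᶠ t : ℝ in atBot, |∫ y in (0 : ℝ)..2 * Real.pi, flux φ lam v a b (x + y * Complex.I)| ≤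
      K * Real.exp t * (2 * Real.pi) := by
    filter_upwards [eventually_lt_atBot (0 : ℝ),
      Real.tendsto_exp_atBot.eventually_lt_const hρ] with t ht ht'
    rw [flux_const hφ D ht hx, ← Real.norm_eq_abs]
    have := intervalIntegral.norm_integral_le_of_norm_le_const (a := (0 : ℝ)) (b := 2 * Real.pi)
      (f := fun y : ℝ => flux φ lam v a b (t + y * Complex.I)) (C := K * Real.exp t) (by
        intro y _
        have h2 : ((t : ℂ) + y * Complex.I).re = t := by simp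
        have := hb (t + y * Complex.I) (by rw [h2]; exact ht')
        rw [h2] at this
        exact this)
    refine this.trans ?_
    rw [sub_zero, abs_of_pos (by positivity)]
  have h2 : Tendsto (fun t : ℝ => K * Real.exp t * (2 * Real.pi)) atBot (𝓝 0) := by
    have := (Real.tendsto_exp_atBot.const_mul K).mul_const (2 * Real.pi)
    simpa using this
  have h3 := ge_of_tendsto h2 h1
  exact abs_nonpos_iff.1 h3

end Pool.Agent.P8H94.SV
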