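import Pool.Agent.P8H8.SV.Stm

/-! Package LAP of project SV: the Laplacian of a composition with a holomorphic function. -/

set_option autoImplicit false

open MeasureTheory Set Filter Metric
open scoped Topology ContDiff ComplexConjugate

namespace Pool.Agent.P8H94.SV

open Pool.Agent.TH298.Sch (SC dd Lr dd_sc Lr_sc dd_Lr)
open Pool.Agent.R227.SA (la Dat)
open Pool.Agent.P8H8.SV

/-- second directional derivatives -/
lemma dd_dd' {U : ℂ → ℝ} {z : ℂ} (hU : ContDiffAt ℝ 2 U z) (h k : ℂ) :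
    dd h (dd k U) z = fderiv ℝ (fderiv ℝ U) z h k := by
  have h1 : ContDiffAt ℝ 1 (fderiv ℝ U) z := hU.fderiv_right (by norm_num)
  have h2 : HasFDerivAt (fderiv ℝ U) (fderiv ℝ (fderiv ℝ U) z) z :=
    (h1.differentiableAt (by norm_num)).hasFDerivAt
  have h3 : HasFDerivAt (dd k U)
      ((ContinuousLinearMap.apply ℝ ℝ k).comp (fderiv ℝ (fderiv ℝ U) z)) z :=
    (ContinuousLinearMap.apply ℝ ℝ k).hasFDerivAt.comp _ h2
  unfold dd at h3 ⊢
  rw [h3.fderiv]
  rfl

/-- the symmetry of the second derivative -/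
lemma sym2 {U : ℂ → ℝ} {z : ℂ} (hU : ContDiffAt ℝ 2 U z) (h k : ℂ) :
    fderiv ℝ (fderiv ℝ U) z h k = fderiv ℝ (fderiv ℝ U) z k h := by
  have := hU.isSymmSndFDerivAt (by simp)
  exact this h k

lemma dd_comm {U : ℂ → ℝ} {z : ℂ} (hU : ContDiffAt ℝ 2 U z) (h k : ℂ) :
    dd h (dd k U) z = dd k (dd h U) z := by
  rw [dd_dd' hU, dd_dd' hU, sym2 hU]

/-- the real derivative of a holomorphic function -/
lemma hol_fderiv {f : ℂ → ℂ} {w : ℂ} (hf : DifferentiableAt ℂ f w) :
    HasFDerivAt f (deriv f w • (ContinuousLinearMap.id ℝ ℂ)) w := by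
  have h1 := hf.hasDerivAt.hasFDerivAt.restrictScalars ℝ
  refine h1.congr_fderiv ?_
  ext x
  simp [mul_comm]

/-- the chain rule for directional derivatives -/
lemma dd_comp {U : ℂ → ℝ} {f : ℂ → ℂ} {w : ℂ} (hU : DifferentiableAt ℝ U (f w))
    (hf : DifferentiableAt ℂ f w) (h : ℂ) :
    dd h (fun x => U (f x)) w = fderiv ℝ U (f w) (deriv f w * h) := by
  have h1 : HasFDerivAt (fun x => U (f x))
      ((fderiv ℝ U (f w)).comp (deriv f w • (ContinuousLinearMap.id ℝ ℂ))) w :=
    hU.hasFDerivAt.comp w (hol_fderiv hf)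
  unfold dd
  rw [h1.fderiv]
  rfl

lemma lin_val2 (T : ℂ →L[ℝ] ℂ →L[ℝ] ℝ) (hs : ∀ h k, T h k = T k h) (a : ℂ) :
    T a a + T (a * Complex.I) (a * Complex.I) = ‖a‖ ^ 2 * (T 1 1 + T Complex.I Complex.I) := by
  have e1 : ∀ (S : ℂ →L[ℝ] ℝ) (x : ℂ), S x = x.re * S 1 + x.im * S Complex.I :=
    Pool.Agent.TH298.Sch.lin_val
  have e2 : ∀ x y : ℂ, T x y = x.re * T 1 y + x.im * T Complex.I y := by
    intro x y
    have := e1 ((ContinuousLinearMap.apply ℝ ℝ y).comp T) x
    simpa using this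
  rw [e2 a, e1 (T 1) a, e1 (T Complex.I) a, e2 (a * Complex.I), e1 (T 1) (a * Complex.I),
    e1 (T Complex.I) (a * Complex.I), hs Complex.I 1, ← Complex.normSq_eq_norm_sq,
    Complex.normSq_apply]
  simp
  ring

theorem t_LAP : S_LAP := by
  intro U f w hU hf
  have hU2 : ∀ᶠ z in 𝓝 (f w), ContDiffAt ℝ 2 U z := hU.eventually (by simp)
  have hfc : ContinuousAt f w := hf.continuousAt
  have h1 : ∀ᶠ y in 𝓝 w, ContDiffAt ℝ 2 U (f y) ∧ DifferentiableAt ℂ f y :=
    (hfc.eventually hU2).and (hf.eventually_analyticAt.mono fun y hy => hy.differentiableAt)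
  have key : ∀ h : ℂ, dd h (dd h (fun x => U (f x))) w =
      fderiv ℝ (fderiv ℝ U) (f w) (deriv f w * h) (deriv f w * h) +
        fderiv ℝ U (f w) (deriv (deriv f) w * h * h) := by
    intro h
    have e1 : dd h (fun x => U (f x)) =ᶠ[𝓝 w] fun y => fderiv ℝ U (f y) (deriv f y * h) := by
      filter_upwards [h1] with y hy
      exact dd_comp (hy.1.differentiableAt (by norm_num)) hy.2 h
    have h2 : HasFDerivAt (fun y => fderiv ℝ U (f y))
        ((fderiv ℝ (fderiv ℝ U) (f w)).comp (deriv f w • (ContinuousLinearMap.id ℝ ℂ))) w :=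
      (((hU.fderiv_right (m := 1) (by norm_num)).differentiableAt (by norm_num)).hasFDerivAt).comp w
        (hol_fderiv hf.differentiableAt)
    have h3 : HasFDerivAt (fun y => deriv f y * h)
        ((deriv (deriv f) w * h) • (ContinuousLinearMap.id ℝ ℂ)) w := by
      have := (hol_fderiv hf.deriv.differentiableAt).mul_const h
      refine this.congr_fderiv ?_
      ext x
      simp [mul_comm, mul_left_comm]
    have h4 := h2.clm_apply h3
    unfold dd at e1 ⊢
    rw [e1.fderiv_eq, h4.fderiv]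
    simp only [ContinuousLinearMap.add_apply, ContinuousLinearMap.comp_apply,
      ContinuousLinearMap.flip_apply, ContinuousLinearMap.smul_apply, ContinuousLinearMap.id_apply,
      smul_eq_mul]
    rw [add_comm]
  unfold la
  rw [key, key, dd_dd' hU, dd_dd' hU]
  have e0 := lin_val2 (fderiv ℝ (fderiv ℝ U) (f w)) (fun h k => sym2 hU h k) (deriv f w)
  have e1 : fderiv ℝ U (f w) (deriv (deriv f) w * Complex.I * Complex.I) =
      -fderiv ℝ U (f w) (deriv (deriv f) w * 1 * 1) := by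
    rw [mul_assoc, Complex.I_mul_I, ← map_neg]
    ring_nf
  rw [e1, mul_one]
  linear_combination e0

end Pool.Agent.P8H94.SV
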