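import Pool.Agent.P8H94.SV.Lap
import Pool.Agent.R227.SA10

/-! Package HELM of project SV: the derivative along a Killing field. -/

set_option autoImplicit false

open MeasureTheory Set Filter Metric
open scoped Topology ContDiff ComplexConjugate

namespace Pool.Agent.P8H94.SV

open Pool.Agent.TH298.Sch (SC dd Lr dd_sc Lr_sc dd_Lr)
open Pool.Agent.R227.SA (la Dat la_Lr)
open Pool.Agent.P8H8.SV

/-- the derivative along a Killing field -/
noncomputable def pk (v : ℂ → ℝ) (a : ℂ) (b : ℝ) (z : ℂ) : ℝ := fderiv ℝ v z (kf a b z)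

lemma pk_eq (v : ℂ → ℝ) (a : ℂ) (b : ℝ) (z : ℂ) : pk v a b z = dd a v z + b * Lr v z := by
  unfold pk kf dd Lr
  rw [map_add]
  congr 1
  rw [show (b : ℂ) * Complex.I * z = b • (Complex.I * z) by
    rw [Complex.real_smul]; ring, map_smul, smul_eq_mul]

lemma pk_sc {U : ℂ → ℝ} (hU : SC U) (a : ℂ) (b : ℝ) : SC (pk U a b) := by
  have e : pk U a b = fun z => dd a U z + b * Lr U z := funext (pk_eq U a b)
  rw [e]
  exact (dd_sc hU a).add ⟨contDiff_const.mul (Lr_sc hU).sm, (Lr_sc hU).cs.mul_left⟩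

/-- Killing fields commute with the Laplacian -/
lemma la_pk {U : ℂ → ℝ} (hU : SC U) (a : ℂ) (b : ℝ) (x : ℂ) :
    la (pk U a b) x = pk (la U) a b x := by
  have e : pk U a b = fun z => dd a U z + b * Lr U z := funext (pk_eq U a b)
  have hb : SC (fun z => b * Lr U z) := ⟨contDiff_const.mul (Lr_sc hU).sm, (Lr_sc hU).cs.mul_left⟩
  have d1 : ∀ {φ ψ : ℂ → ℝ}, SC φ → SC ψ → ∀ h y, dd h (fun x => φ x + b * ψ x) y =
      dd h φ y + b * dd h ψ y := by
    intro φ ψ hφ hψ h y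
    have := ((hφ.diff y).hasFDerivAt.add ((hψ.diff y).hasFDerivAt.const_mul b)).fderiv
    unfold dd
    rw [show (fun x => φ x + b * ψ x) = φ + (fun x => b * ψ x) from rfl, this]
    rfl
  have d2 : ∀ h, dd h (dd h (fun z => dd a U z + b * Lr U z)) x =
      dd h (dd h (dd a U)) x + b * dd h (dd h (Lr U)) x := by
    intro h
    have : dd h (fun z => dd a U z + b * Lr U z) = fun z => dd h (dd a U) z + b * dd h (Lr U) z :=
      funext fun y => d1 (dd_sc hU a) (Lr_sc hU) h y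
    rw [this, d1 (dd_sc (dd_sc hU a) h) (dd_sc (Lr_sc hU) h)]
  have d3 : ∀ h, dd h (dd h (dd a U)) x = dd a (dd h (dd h U)) x := by
    intro h
    have c2 : ∀ {φ : ℂ → ℝ}, SC φ → ∀ h k y, dd h (dd k φ) y = dd k (dd h φ) y := fun hφ h k y =>
      dd_comm (hφ.sm.contDiffAt.of_le (by norm_cast)) h k
    have : dd h (dd a U) = dd a (dd h U) := funext fun y => c2 hU h a y
    rw [this, c2 (dd_sc hU h)]
  have d4 : dd a (la U) x = dd a (dd 1 (dd 1 U)) x + dd a (dd Complex.I (dd Complex.I U)) x := by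
    have := fderiv_fun_add ((dd_sc (dd_sc hU 1) 1).diff x)
      ((dd_sc (dd_sc hU Complex.I) Complex.I).diff x)
    change fderiv ℝ (fun x => dd 1 (dd 1 U) x + dd Complex.I (dd Complex.I U) x) x a = _
    rw [this]
    rfl
  rw [pk_eq, ← la_Lr hU, d4, e]
  unfold la
  rw [d2, d2, d3, d3]
  ring

variable {Ω : Set ℂ} {lam c : ℝ} {v : ℂ → ℝ}

/-- the Helmholtz equation for the derivative along a Killing field -/
lemma pk_loc (D : Dat Ω lam c v) (a : ℂ) (b : ℝ) {x : ℂ} (hx : x ∈ Ω) :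
    ContDiffAt ℝ ∞ (pk v a b) x ∧ la (pk v a b) x = -lam * pk v a b x := by
  obtain ⟨r, hr, U, hU, hb, h⟩ := D.loc x hx
  have hn : ∀ᶠ y in 𝓝 x, pk v a b y = pk U a b y := by
    filter_upwards [ball_mem_nhds x hr] with y hy
    have h1 : v =ᶠ[𝓝 y] fun y => U y - c := by
      filter_upwards [isOpen_ball.mem_nhds hy] with z hz
      rw [← (h z hz).1]
      ring
    unfold pk
    rw [h1.fderiv_eq, fderiv_sub_const]
  have hla : ∀ {f g : ℂ → ℝ}, (∀ᶠ y in 𝓝 x, f y = g y) → la f x = la g x := by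
    intro f g hfg
    have h1 : ∀ k, dd k (dd k f) x = dd k (dd k g) x := by
      intro k
      have h2 : ∀ᶠ y in 𝓝 x, dd k f y = dd k g y := by
        filter_upwards [hfg.eventually_nhds] with y hy
        unfold dd
        rw [Filter.EventuallyEq.fderiv_eq hy]
      change fderiv ℝ (dd k f) x k = fderiv ℝ (dd k g) x k
      rw [Filter.EventuallyEq.fderiv_eq h2]
    unfold la
    rw [h1, h1]
  refine ⟨(pk_sc hU a b).sm.contDiffAt.congr_of_eventuallyEq hn, ?_⟩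
  rw [hla hn, hn.self_of_nhds, la_pk hU]
  have h1 : la U =ᶠ[𝓝 x] fun y => -(lam * U y) := by
    filter_upwards [ball_mem_nhds x hr] with y hy
    exact (h y hy).2
  unfold pk
  rw [h1.fderiv_eq]
  have h2 : HasFDerivAt (fun y => -(lam * U y)) (-(lam • fderiv ℝ U x)) x :=
    (((hU.diff x).hasFDerivAt).const_mul lam).neg
  rw [h2.fderiv]
  simp

lemma exp_mem {ζ : ℂ} (h : ζ.re < 0) : Complex.exp ζ ∈ ball (0 : ℂ) 1 := by
  rw [mem_ball_zero_iff, Complex.norm_exp]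
  exact Real.exp_lt_one_iff.2 h

lemma F_an {φ : ℂ → ℂ} {r : ℝ} (hφ : Dom φ r) {ζ : ℂ} (h : ζ.re < 0) :
    AnalyticAt ℂ (fun z => φ (Complex.exp z)) ζ := by
  have h1 : AnalyticAt ℂ φ (Complex.exp ζ) :=
    hφ.hol.analyticAt (isOpen_ball.mem_nhds (ball_subset_ball hφ.hr.le (exp_mem h)))
  exact h1.comp analyticAt_cexp

lemma F_deriv {φ : ℂ → ℂ} {r : ℝ} (hφ : Dom φ r) {ζ : ℂ} (h : ζ.re < 0) :
    deriv (fun z => φ (Complex.exp z)) ζ = dF φ ζ := by
  have h1 : AnalyticAt ℂ φ (Complex.exp ζ) :=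
    hφ.hol.analyticAt (isOpen_ball.mem_nhds (ball_subset_ball hφ.hr.le (exp_mem h)))
  have h2 := h1.differentiableAt.hasDerivAt.comp ζ (Complex.hasDerivAt_exp ζ)
  have h3 : deriv (fun z => φ (Complex.exp z)) ζ = _ := h2.deriv
  rw [h3, dF, mul_comm]

theorem t_HELM : S_HELM := by
  intro φ r lam c v a b hφ D
  have hm : ∀ ζ : ℂ, ζ.re < 0 → φ (Complex.exp ζ) ∈ φ '' ball 0 1 := fun ζ h =>
    mem_image_of_mem _ (exp_mem h)
  have hsm : ∀ ζ : ℂ, ζ.re < 0 → ContDiffAt ℝ ∞ (PP φ v a b) ζ := by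
    intro ζ h
    have h1 : ContDiffAt ℝ ∞ (fun z => φ (Complex.exp z)) ζ :=
      ((F_an hφ h).contDiffAt (n := ∞)).restrict_scalars ℝ
    exact (pk_loc D a b (hm ζ h)).1.comp ζ h1
  refine ⟨fun ζ h => (hsm ζ h).contDiffWithinAt, fun ζ h => ?_⟩
  have h1 := t_LAP (pk v a b) (fun z => φ (Complex.exp z)) ζ
    ((pk_loc D a b (hm ζ h)).1.of_le (by norm_cast)) (F_an hφ h)
  rw [F_deriv hφ h, (pk_loc D a b (hm ζ h)).2] at h1
  change la (fun x => pk v a b (φ (Complex.exp x))) ζ = _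
  rw [h1]
  unfold PP pk
  ring

end Pool.Agent.P8H94.SV
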